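import Mathlib

set_option autoImplicit false

namespace Pool.Agent.H.MP_80eea4_gt

open IsLocalRing RingTheory.Sequence Function

variable {R : Type} [CommRing R] [IsLocalRing R] [IsNoetherianRing R]
  {ι : Type} [Fintype ι] [DecidableEq ι]

/-- the family c generates an ideal primary to the maximal ideal -/
def Sop (c : ι → R) : Prop :=
  (∀ i, c i ∈ maximalIdeal R) ∧
    ∀ P : Ideal R, P.IsPrime → (∀ i, c i ∈ P) → P = maximalIdeal R

/-- the ideal generated by all members but one -/
def J (c : ι → R) (i : ι) : Ideal R := Ideal.span (c '' {j | j ≠ i})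

theorem between {P Q : Ideal R} (hP : P.IsPrime) (hQ : Q.IsPrime) (x : R)
    (hx : x ∈ maximalIdeal R)
    (h : ∀ Q : Ideal R, Q.IsPrime → P ≤ Q → x ∈ Q → Q = maximalIdeal R) (hPQ : P < Q) :
    Q = maximalIdeal R := by
  by_contra hne
  have hlt : Q < maximalIdeal R := lt_of_le_of_ne (le_maximalIdeal hQ.ne_top) hne
  have hmin : maximalIdeal R ∈ (P ⊔ Ideal.span {x}).minimalPrimes :=
    ⟨⟨inferInstance, sup_le (le_maximalIdeal hP.ne_top) (by simpa using hx)⟩,
      fun Q' hq _ => (h Q' hq.1 (le_sup_left.trans hq.2)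
        (hq.2 (Ideal.mem_sup_right (Ideal.mem_span_singleton_self x)))).ge⟩
  have h1 := Ideal.map_height_le_one_of_mem_minimalPrimes hmin
  have cm : ∀ I : Ideal R, P ≤ I → (I.map (Ideal.Quotient.mk P)).comap (Ideal.Quotient.mk P) = I :=
    fun I hI => by
      rw [Ideal.comap_map_of_surjective _ Ideal.Quotient.mk_surjective, sup_eq_left,
        ← RingHom.ker_eq_comap_bot, Ideal.mk_ker]
      exact hI
  have st : ∀ I I' : Ideal R, P ≤ I → I < I' →
      I.map (Ideal.Quotient.mk P) < I'.map (Ideal.Quotient.mk P) := fun I I' hI hl =>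
    lt_of_le_of_ne (Ideal.map_mono hl.le) fun e => hl.ne (by
      rw [← cm I hI, e, cm I' (hI.trans hl.le)])
  have pr : ∀ I : Ideal R, I.IsPrime → P ≤ I → (I.map (Ideal.Quotient.mk P)).IsPrime :=
    fun I hI hl => Ideal.map_isPrime_of_surjective Ideal.Quotient.mk_surjective
      (by rw [Ideal.mk_ker]; exact hl)
  have := pr P hP le_rfl
  have := pr Q hQ hPQ.le
  have := pr _ (inferInstance : (maximalIdeal R).IsPrime) (hPQ.le.trans hlt.le)
  have h2 := Ideal.height_add_one_le_of_lt_of_isPrime (st P Q le_rfl hPQ)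
  have h3 := Ideal.height_add_one_le_of_lt_of_isPrime (st Q _ hPQ.le hlt)
  have h4 : (1 : ℕ∞) + 1 ≤ 1 :=
    le_trans (by gcongr; exact le_trans le_add_self h2) (h3.trans h1)
  exact absurd h4 (by decide)

omit [IsLocalRing R] [IsNoetherianRing R] [Fintype ι] [DecidableEq ι] in
theorem J_le {c : ι → R} {i : ι} {P : Ideal R} : J c i ≤ P ↔ ∀ j, j ≠ i → c j ∈ P := by
  simp [J, Ideal.span_le, Set.subset_def]

omit [IsLocalRing R] [IsNoetherianRing R] [Fintype ι] in
theorem J_update (c : ι → R) (i : ι) (h : R) : J (update c i h) i = J c i := by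
  unfold J
  congr 1
  exact Set.image_congr fun j hj => update_of_ne hj _ _

omit [IsNoetherianRing R] [Fintype ι] in
theorem Sop.not_mem {a : ι → R} (ha : Sop a) {i : ι} {P : Ideal R} (hP : P.IsPrime)
    (hJ : J a i ≤ P) (hne : P ≠ maximalIdeal R) : a i ∉ P := fun h =>
  hne (ha.2 P hP fun j => if e : j = i then e ▸ h else J_le.1 hJ j e)

omit [Fintype ι] in
theorem Sop.update {a : ι → R} (ha : Sop a) (i : ι) {h : R} (hm : h ∈ maximalIdeal R)
    (hP : ∀ P ∈ (J a i).minimalPrimes, P ≠ maximalIdeal R → h ∉ P) : Sop (update a i h) := by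
  refine ⟨fun j => ?_, fun Q hQ hq => ?_⟩
  · by_cases e : j = i
    · subst e; simpa using hm
    · simpa [e] using ha.1 j
  · have hJ : J a i ≤ Q := J_le.2 fun j e => by simpa [e] using hq j
    obtain ⟨P, hP1, hP2⟩ := Ideal.exists_minimalPrimes_le hJ
    by_cases e : P = maximalIdeal R
    · exact le_antisymm (le_maximalIdeal hQ.ne_top) (e ▸ hP2)
    · refine between hP1.1.1 hQ (a i) (ha.1 i) (fun Q' h1 h2 h3 => ?_)
        (lt_of_le_of_ne hP2 fun e' => hP P hP1 e (e' ▸ by simpa using hq i))
      by_contra hne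
      exact ha.not_mem h1 (hP1.1.2.trans h2) hne h3

variable {k : Type} [Field k] [Algebra k R]

omit [Fintype ι] in
theorem exchange [Infinite k] {a b : ι → R} (ha : Sop a) (hb : Sop b) (i : ι) :
    ∃ t : k, Sop (update a i (a i + t • b i)) ∧ Sop (update b i (a i + t • b i)) := by
  have key : ∀ P : Ideal R, (a i ∉ P ∨ b i ∉ P) → {t : k | a i + t • b i ∈ P}.Finite := by
    intro P hP
    refine Set.Subsingleton.finite fun t ht t' ht' => ?_
    by_contra hne
    have h1 : (t - t') • b i ∈ P := by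
      have := P.sub_mem ht ht'
      rwa [add_sub_add_left_eq_sub, ← sub_smul] at this
    have h2 : b i ∈ P := by
      have := Submodule.smul_of_tower_mem P (t - t')⁻¹ h1
      rwa [smul_smul, inv_mul_cancel₀ (sub_ne_zero.2 hne), one_smul] at this
    rcases hP with hP | hP
    · exact hP (by simpa using P.sub_mem ht (Submodule.smul_of_tower_mem P t h2))
    · exact hP h2
  have fin : ∀ c : ι → R, (∀ P : Ideal R, P.IsPrime → J c i ≤ P → P ≠ maximalIdeal R →
      (a i ∉ P ∨ b i ∉ P)) →
      (⋃ P ∈ {P ∈ (J c i).minimalPrimes | P ≠ maximalIdeal R},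
        {t : k | a i + t • b i ∈ P}).Finite := fun c hc =>
    ((Ideal.finite_minimalPrimes_of_isNoetherianRing R (J c i)).subset
      (Set.sep_subset _ _)).biUnion fun P hP => key P (hc P hP.1.1.1 hP.1.1.2 hP.2)
  obtain ⟨t, ht⟩ := ((fin a fun P h1 h2 h3 => .inl (ha.not_mem h1 h2 h3)).union
    (fin b fun P h1 h2 h3 => .inr (hb.not_mem h1 h2 h3))).infinite_compl.nonempty
  have hm : a i + t • b i ∈ maximalIdeal R :=
    Ideal.add_mem _ (ha.1 i) (Submodule.smul_of_tower_mem _ t (hb.1 i))
  refine ⟨t, ha.update i hm fun P h1 h2 h3 => ht (.inl ?_),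
    hb.update i hm fun P h1 h2 h3 => ht (.inr ?_)⟩ <;>
  exact Set.mem_biUnion (show P ∈ {P ∈ _ | P ≠ maximalIdeal R} from ⟨h1, h2⟩) h3

omit [Fintype ι] in
theorem chain [Infinite k] {β : Type} (F : (ι → R) → β) (W : ι → Submodule k R) (D : Set ι)
    (hF : ∀ c i h, i ∈ D → Sop c → Sop (update c i h) → (∀ j, c j ∈ W j) → h ∈ W i →
      F c = F (update c i h)) (s : Finset ι) :
    ∀ a b, Sop a → Sop b → (∀ j, a j ∈ W j) → (∀ j, b j ∈ W j) → (∀ i ∈ s, i ∈ D) →
      (∀ i ∉ s, a i = b i) → F a = F b := by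
  induction s using Finset.induction_on with
  | empty => intro a b _ _ _ _ _ h; rw [show a = b from funext fun i => h i (by simp)]
  | insert i s _ ih =>
    intro a b ha hb wa wb hD h
    obtain ⟨t, h1, h2⟩ := exchange (k := k) ha hb i
    have hw : a i + t • b i ∈ W i := (W i).add_mem (wa i) ((W i).smul_mem t (wb i))
    have up : ∀ c : ι → R, (∀ j, c j ∈ W j) → ∀ j, update c i (a i + t • b i) j ∈ W j := by
      intro c hc j
      by_cases e : j = i
      · subst e; simpa using hw
      · simpa [e] using hc j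
    rw [hF a i _ (hD i (by simp)) ha h1 wa hw, hF b i _ (hD i (by simp)) hb h2 wb hw]
    refine ih _ _ h1 h2 (up a wa) (up b wb) (fun j hj => hD j (by simp [hj])) fun j hj => ?_
    by_cases e : j = i
    · subst e; simp
    · simpa [e] using h j (by simp [e, hj])

/-- the family is a regular sequence -/
def Good (c : ι → R) : Prop := IsWeaklyRegular R (Finset.univ.toList.map c)

theorem good_iff {c : ι → R} (hc : ∀ i, c i ∈ maximalIdeal R) (i : ι) :
    Good c ↔ IsWeaklyRegular R ((Finset.univ.toList.erase i).map c) ∧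
      ∀ u, c i * u ∈ J c i → u ∈ J c i := by
  have hp : (Finset.univ.toList.map c).Perm ((Finset.univ.toList.erase i).map c ++ [c i]) := by
    refine ((List.perm_cons_erase (a := i) (by simp)).map c).trans ?_
    rw [List.map_cons]
    exact (List.perm_append_singleton _ _).symm
  have hm : ∀ r ∈ Finset.univ.toList.map c, r ∈ maximalIdeal R := by
    simpa using hc
  have hJ : (Ideal.ofList ((Finset.univ.toList.erase i).map c) • ⊤ : Submodule R R) = J c i := by
    rw [smul_eq_mul, Ideal.mul_top]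
    unfold Ideal.ofList J
    congr 1
    ext r
    simp [(Finset.nodup_toList _).mem_erase_iff]
  have e : Good c ↔ IsWeaklyRegular R ((Finset.univ.toList.erase i).map c ++ [c i]) :=
    ⟨fun h => isWeaklyRegular_of_perm_of_subset_maximalIdeal h hp hm,
      fun h => isWeaklyRegular_of_perm_of_subset_maximalIdeal h hp.symm
        fun r hr => hm r (hp.mem_iff.2 hr)⟩
  rw [e, isWeaklyRegular_append_iff, isWeaklyRegular_singleton_iff,
    isSMulRegular_quotient_iff_mem_of_smul_mem, hJ]
  rfl

theorem Good.update {c : ι → R} (hc : ∀ i, c i ∈ maximalIdeal R) (hg : Good c) (i : ι) (h : R)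
    (hs : Sop (update c i h)) : Good (update c i h) := by
  obtain ⟨h1, h2⟩ := (good_iff hc i).1 hg
  rw [good_iff hs.1 i, J_update, update_self]
  refine ⟨?_, ?_⟩
  · convert h1 using 1
    exact List.map_congr_left fun j hj =>
      update_of_ne ((Finset.nodup_toList _).mem_erase_iff.1 hj).1 _ _
  · have r1 : IsSMulRegular (R ⧸ J c i) (c i) :=
      (isSMulRegular_quotient_iff_mem_of_smul_mem (J c i) _).2 h2
    refine (isSMulRegular_quotient_iff_mem_of_smul_mem (J c i) h).1 ?_
    by_contra hn
    have hh : h ∈ ⋃ P ∈ associatedPrimes R (R ⧸ J c i), (P : Set R) := by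
      rw [biUnion_associatedPrimes_eq_compl_regular]; exact hn
    obtain ⟨P, hP, hh⟩ := Set.mem_iUnion₂.1 hh
    have hJ : J c i ≤ P := by
      have := IsAssociatedPrime.annihilator_le hP
      rwa [Submodule.annihilator_top, Ideal.annihilator_quotient] at this
    have e : P = maximalIdeal R := by
      by_contra hne
      exact hs.not_mem (i := i) hP.isPrime (by rwa [J_update]) hne (by simpa using hh)
    have : c i ∈ ⋃ P ∈ associatedPrimes R (R ⧸ J c i), (P : Set R) :=
      Set.mem_iUnion₂.2 ⟨P, hP, e ▸ hc i⟩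
    rw [biUnion_associatedPrimes_eq_compl_regular] at this
    exact this r1

theorem good_of_sop [Infinite k] {a b : ι → R} (ha : Sop a) (hb : Sop b) (hg : Good a) :
    Good b := by
  refine (chain (k := k) Good (fun _ => ⊤) Set.univ (fun c i h _ h1 h2 _ _ => propext
    ⟨fun g => g.update h1.1 i h h2, fun g => ?_⟩) Finset.univ a b ha hb (by simp) (by simp)
    (by simp) (by simp)) ▸ hg
  simpa using g.update h2.1 i (c i) (by simpa using h1)

end Pool.Agent.H.MP_80eea4_gt
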