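import Pool.Agent.H.MP_80eea4_gt.A

set_option autoImplicit false

namespace Pool.Agent.H.MP_80eea4_gt

open IsLocalRing Function

variable {k : Type} [Field k]

theorem trace_add {U V W : Type} [AddCommGroup U] [AddCommGroup V] [AddCommGroup W]
    [Module k U] [Module k V] [Module k W] [Module.Finite k U] [Module.Finite k V]
    [Module.Finite k W] (i : U →ₗ[k] V) (p : V →ₗ[k] W) (hi : Injective i) (hp : Surjective p)
    (he : ∀ v, p v = 0 ↔ ∃ u, i u = v) (fU : U →ₗ[k] U) (fV : V →ₗ[k] V) (fW : W →ₗ[k] W)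
    (h1 : fV ∘ₗ i = i ∘ₗ fU) (h2 : p ∘ₗ fV = fW ∘ₗ p) :
    LinearMap.trace k V fV = LinearMap.trace k U fU + LinearMap.trace k W fW := by
  obtain ⟨s, hs⟩ := p.exists_rightInverse_of_surjective (LinearMap.range_eq_top.2 hp)
  obtain ⟨r, hr⟩ := i.exists_leftInverse_of_injective (LinearMap.ker_eq_bot.2 hi)
  have hs' : ∀ w, p (s w) = w := fun w => LinearMap.congr_fun hs w
  have hr' : ∀ u, r (i u) = u := fun u => LinearMap.congr_fun hr u
  have e : fV = (fV ∘ₗ i) ∘ₗ (r ∘ₗ (LinearMap.id - s ∘ₗ p)) + (fV ∘ₗ s) ∘ₗ p := by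
    ext v
    obtain ⟨u, hu⟩ := (he (v - s (p v))).1 (by simp [hs'])
    simp only [LinearMap.add_apply, LinearMap.comp_apply, LinearMap.sub_apply, LinearMap.id_apply]
    rw [← hu, hr', hu, ← map_add, sub_add_cancel]
  rw [e, map_add, LinearMap.trace_comp_comm', LinearMap.trace_comp_comm' p]
  congr 2
  · ext u
    have := LinearMap.congr_fun h1 u
    simp only [LinearMap.comp_apply] at this
    simp [this, hr', (he _).2 ⟨_, rfl⟩]
  · ext w
    have := LinearMap.congr_fun h2 (s w)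
    simpa [hs'] using this

variable {R : Type} [CommRing R] [Algebra k R]

open Classical in
/-- trace of the map induced on the quotient -/
noncomputable def tr (σ : R →ₐ[k] R) (I : Ideal R) : k :=
  if h : I ≤ I.comap σ then LinearMap.trace k _ (Ideal.quotientMapₐ I σ h).toLinearMap else 0

theorem stab (σ : R →ₐ[k] R) {I : Ideal R} (hI : I ≤ I.comap σ) {h : R} {z : k}
    (hz : σ h = z • h) : I ⊔ Ideal.span {h} ≤ (I ⊔ Ideal.span {h}).comap σ := by
  refine sup_le (hI.trans (Ideal.comap_mono le_sup_left)) ?_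
  rw [Ideal.span_singleton_le_iff_mem, Ideal.mem_comap, hz]
  exact Submodule.smul_of_tower_mem _ z (Ideal.mem_sup_right (Ideal.mem_span_singleton_self h))

theorem tr_add (σ : R →ₐ[k] R) {I : Ideal R} (hI : I ≤ I.comap σ) {h h' : R} {z z' : k}
    (hz : σ h = z • h) (hz' : σ h' = z' • h') (reg : ∀ u, h * u ∈ I → u ∈ I)
    [Module.Finite k (R ⧸ (I ⊔ Ideal.span {h}))] [Module.Finite k (R ⧸ (I ⊔ Ideal.span {h'}))]
    [Module.Finite k (R ⧸ (I ⊔ Ideal.span {h * h'}))] :
    tr σ (I ⊔ Ideal.span {h * h'}) =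
      z * tr σ (I ⊔ Ideal.span {h'}) + tr σ (I ⊔ Ideal.span {h}) := by
  have hzz : σ (h * h') = (z * z') • (h * h') := by
    rw [map_mul, hz, hz', smul_mul_smul_comm]
  have m : ∀ (x r : R), r ∈ I ⊔ Ideal.span {x} ↔ ∃ a, r - x * a ∈ I := fun x r => by
    rw [Submodule.mem_sup]
    constructor
    · rintro ⟨y, hy, w, hw, rfl⟩
      obtain ⟨a, rfl⟩ := Ideal.mem_span_singleton'.1 hw
      exact ⟨a, by simpa [mul_comm] using hy⟩
    · rintro ⟨a, ha⟩
      exact ⟨_, ha, x * a, Ideal.mem_span_singleton'.2 ⟨a, mul_comm _ _⟩, by ring⟩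
  have key : ∀ r, h * r ∈ I ⊔ Ideal.span {h * h'} ↔ r ∈ I ⊔ Ideal.span {h'} := fun r => by
    rw [m, m]
    refine exists_congr fun a => ⟨fun H => reg _ (by convert H using 1; ring), fun H => ?_⟩
    convert I.mul_mem_left h H using 1
    ring
  let i : (R ⧸ (I ⊔ Ideal.span {h'})) →ₗ[R] (R ⧸ (I ⊔ Ideal.span {h * h'})) :=
    Submodule.mapQ _ _ (LinearMap.mulLeft R h) fun r hr => (key r).2 hr
  have hi : ∀ r, i (Ideal.Quotient.mk _ r) = Ideal.Quotient.mk _ (h * r) := fun r => rfl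
  have le : I ⊔ Ideal.span {h * h'} ≤ I ⊔ Ideal.span {h} :=
    sup_le_sup_left (Ideal.span_singleton_le_span_singleton.2 (dvd_mul_right _ _)) _
  let p := (Ideal.Quotient.factorₐ k le).toLinearMap
  have hp : ∀ r, p (Ideal.Quotient.mk _ r) = Ideal.Quotient.mk _ r := fun r => rfl
  have hq : ∀ (K : Ideal R) (hK : K ≤ K.comap σ) (r : R), (Ideal.quotientMapₐ K σ hK).toLinearMap
      (Ideal.Quotient.mk K r) = Ideal.Quotient.mk K (σ r) := fun _ _ _ => rfl
  have s1 := stab σ hI hzz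
  have s2 := stab σ hI hz
  have s3 := stab σ hI hz'
  unfold tr
  rw [dif_pos s1, dif_pos s2, dif_pos s3, ← smul_eq_mul z, ← map_smul]
  refine trace_add (i.restrictScalars k) p ?_ ?_ ?_ _ _ _ ?_ ?_
  · refine (injective_iff_map_eq_zero _).2 fun u hu => ?_
    obtain ⟨r, rfl⟩ := Ideal.Quotient.mk_surjective u
    exact Ideal.Quotient.eq_zero_iff_mem.2 ((key r).1 (Ideal.Quotient.eq_zero_iff_mem.1 hu))
  · intro u
    obtain ⟨r, rfl⟩ := Ideal.Quotient.mk_surjective u
    exact ⟨_, hp r⟩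
  · intro u
    obtain ⟨r, rfl⟩ := Ideal.Quotient.mk_surjective u
    rw [hp, Ideal.Quotient.eq_zero_iff_mem, m]
    constructor
    · rintro ⟨a, ha⟩
      exact ⟨Ideal.Quotient.mk _ a, (Ideal.Quotient.eq.2 (Ideal.mem_sup_left ha)).symm⟩
    · rintro ⟨a, ha⟩
      obtain ⟨a, rfl⟩ := Ideal.Quotient.mk_surjective a
      obtain ⟨b, hb⟩ := (m _ _).1 (Ideal.Quotient.eq.1 ((hi a).symm.trans ha).symm)
      exact ⟨a + h' * b, by convert hb using 1; ring⟩
  · refine LinearMap.ext fun u => ?_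
    obtain ⟨r, rfl⟩ := Ideal.Quotient.mk_surjective u
    simp only [LinearMap.comp_apply, LinearMap.restrictScalars_apply, LinearMap.smul_apply, hq, hi,
      LinearMap.map_smul_of_tower, map_mul σ, hz, smul_mul_assoc]
    exact map_smul (Ideal.Quotient.mkₐ k _) z _
  · refine LinearMap.ext fun u => ?_
    obtain ⟨r, rfl⟩ := Ideal.Quotient.mk_surjective u
    simp only [LinearMap.comp_apply, hq, hp]

variable [IsLocalRing R] [IsNoetherianRing R] {ι : Type} [Fintype ι] [DecidableEq ι]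

omit [IsNoetherianRing R] [Fintype ι] [DecidableEq ι] in
theorem approx (x : ι → R) (hx : maximalIdeal R = Ideal.span (Set.range x))
    (hk : ∀ r : R, ∃ c : k, r - algebraMap k R c ∈ maximalIdeal R) (N : ℕ) (r : R) :
    ∃ s ∈ Algebra.adjoin k (Set.range x), r - s ∈ maximalIdeal R ^ N := by
  have h1 : ∀ v ∈ maximalIdeal R, ∃ s ∈ Algebra.adjoin k (Set.range x),
      v - s ∈ maximalIdeal R * maximalIdeal R := by
    intro v hv
    rw [hx] at hv
    induction hv using Submodule.span_induction with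
    | mem y hy => exact ⟨y, Algebra.subset_adjoin hy, by simp⟩
    | zero => exact ⟨0, zero_mem _, by simp⟩
    | add a b _ _ ha hb =>
      obtain ⟨s, h1, h2⟩ := ha
      obtain ⟨t, h3, h4⟩ := hb
      exact ⟨s + t, add_mem h1 h3, by convert add_mem h2 h4 using 1; ring⟩
    | smul a b hb ih =>
      obtain ⟨s, h1, h2⟩ := ih
      obtain ⟨c, hc⟩ := hk a
      refine ⟨algebraMap k R c * s, mul_mem (Subalgebra.algebraMap_mem _ c) h1, ?_⟩
      convert add_mem (Ideal.mul_mem_mul hc (hx.ge hb)) (Ideal.mul_mem_left _ (algebraMap k R c) h2)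
        using 1
      simp only [smul_eq_mul]
      ring
  have h2 : ∀ N : ℕ, ∀ v ∈ maximalIdeal R ^ N, ∃ s ∈ Algebra.adjoin k (Set.range x),
      v - s ∈ maximalIdeal R ^ (N + 1) := by
    intro N
    induction N with
    | zero =>
      intro v _
      obtain ⟨c, hc⟩ := hk v
      exact ⟨_, Subalgebra.algebraMap_mem _ c, by simpa using hc⟩
    | succ N ih =>
      intro v hv
      rw [pow_succ] at hv
      refine Submodule.mul_induction_on hv (fun a ha b hb => ?_) ?_
      · obtain ⟨s, s1, s2⟩ := ih a ha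
        obtain ⟨t, t1, t2⟩ := h1 b hb
        refine ⟨s * t, mul_mem s1 t1, ?_⟩
        have ht : t ∈ maximalIdeal R := by
          simpa using sub_mem hb (Ideal.mul_le_left t2)
        have a1 := Ideal.mul_mem_mul ha t2
        have a2 := Ideal.mul_mem_mul s2 ht
        rw [← mul_assoc, ← pow_succ, ← pow_succ] at a1
        rw [← pow_succ] at a2
        convert add_mem a1 a2 using 1
        ring
      · rintro a b ⟨s, h1, h2⟩ ⟨t, h3, h4⟩
        exact ⟨s + t, add_mem h1 h3, by convert add_mem h2 h4 using 1; ring⟩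
  induction N with
  | zero => exact ⟨0, zero_mem _, by simp⟩
  | succ N ih =>
    obtain ⟨s, s1, s2⟩ := ih
    obtain ⟨t, t1, t2⟩ := h2 N _ s2
    exact ⟨s + t, add_mem s1 t1, by convert t2 using 1; ring⟩

theorem pow_le {I : Ideal R}
    (hI : ∀ P : Ideal R, P.IsPrime → I ≤ P → P = maximalIdeal R) :
    ∃ N : ℕ, maximalIdeal R ^ N ≤ I := by
  refine Ideal.exists_pow_le_of_le_radical_of_fg ?_ (IsNoetherian.noetherian _)
  rw [Ideal.radical_eq_sInf]
  exact le_sInf fun P hP => (hI P hP.2 hP.1).ge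

omit [Fintype ι] [DecidableEq ι] in
theorem adj_top (x : ι → R) (hx : maximalIdeal R = Ideal.span (Set.range x))
    (hk : ∀ r : R, ∃ c : k, r - algebraMap k R c ∈ maximalIdeal R) {I : Ideal R}
    (hI : ∀ P : Ideal R, P.IsPrime → I ≤ P → P = maximalIdeal R) :
    Algebra.adjoin k (Set.range fun i => Ideal.Quotient.mk I (x i)) = ⊤ := by
  obtain ⟨N, hN⟩ := pow_le hI
  refine eq_top_iff.2 fun u _ => ?_
  obtain ⟨r, rfl⟩ := Ideal.Quotient.mk_surjective u
  obtain ⟨s, s1, s2⟩ := approx x hx hk N r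
  rw [Ideal.Quotient.eq.2 (hN s2)]
  have := Subalgebra.mem_map.2 ⟨s, s1, (rfl : Ideal.Quotient.mkₐ k I s = _)⟩
  rwa [AlgHom.map_adjoin, ← Set.range_comp] at this

omit [DecidableEq ι] in
theorem fin_quot (x : ι → R) (hx : maximalIdeal R = Ideal.span (Set.range x))
    (hk : ∀ r : R, ∃ c : k, r - algebraMap k R c ∈ maximalIdeal R) {I : Ideal R}
    (hI : ∀ P : Ideal R, P.IsPrime → I ≤ P → P = maximalIdeal R) : Module.Finite k (R ⧸ I) := by
  obtain ⟨N, hN⟩ := pow_le hI
  have := Algebra.finite_adjoin_of_finite_of_isIntegral (R := k)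
    (Set.finite_range fun i => Ideal.Quotient.mk I (x i)) (by
      rintro _ ⟨i, rfl⟩
      refine ⟨Polynomial.X ^ N, Polynomial.monic_X_pow N, ?_⟩
      rw [Polynomial.eval₂_X_pow, ← map_pow, Ideal.Quotient.eq_zero_iff_mem]
      exact hN (Ideal.pow_mem_pow (hx ▸ Ideal.subset_span ⟨i, rfl⟩) N))
  rw [adj_top x hx hk hI] at this
  exact Module.Finite.equiv Subalgebra.topEquiv.toLinearEquiv

omit [IsLocalRing R] [IsNoetherianRing R] [Fintype ι] [DecidableEq ι] in
theorem span_eq (c : ι → R) (i : ι) : Ideal.span (Set.range c) = J c i ⊔ Ideal.span {c i} := by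
  unfold J
  rw [← Ideal.span_union]
  congr 1
  ext r
  constructor
  · rintro ⟨j, rfl⟩
    by_cases e : j = i
    · exact .inr (by simp [e])
    · exact .inl ⟨j, e, rfl⟩
  · rintro (⟨j, _, rfl⟩ | rfl) <;> simp

theorem tr_sop [Infinite k] (x : ι → R) (hx : maximalIdeal R = Ideal.span (Set.range x))
    (hk : ∀ r : R, ∃ c : k, r - algebraMap k R c ∈ maximalIdeal R) (hg : Good x)
    (σ : R →ₐ[k] R) (z : ι → k) {a b : ι → R} (ha : Sop a) (hb : Sop b)
    (wa : ∀ i, σ (a i) = z i • a i) (wb : ∀ i, σ (b i) = z i • b i)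
    (hab : ∀ i, z i = 1 → a i = b i) :
    tr σ (Ideal.span (Set.range a)) = tr σ (Ideal.span (Set.range b)) := by
  classical
  have sx : Sop x := ⟨fun i => hx ▸ Ideal.subset_span ⟨i, rfl⟩, fun P hP h =>
    le_antisymm (le_maximalIdeal hP.ne_top) (hx ▸ Ideal.span_le.2 (Set.range_subset_iff.2 h))⟩
  refine chain (k := k) (fun c => tr σ (Ideal.span (Set.range c)))
    (fun i => Module.End.eigenspace σ.toLinearMap (z i)) {i | z i ≠ 1} ?_
    (Finset.univ.filter fun i => z i ≠ 1) a b ha hb (by simpa using wa) (by simpa using wb)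
    (by simp) (by simpa using hab)
  intro c i h hi h1 h2 wc wh
  simp only [Module.End.mem_eigenspace_iff, AlgHom.toLinearMap_apply] at wc wh
  have r1 := ((good_iff h1.1 i).1 (good_of_sop (k := k) sx h1 hg)).2
  have r2 := ((good_iff h2.1 i).1 (good_of_sop (k := k) sx h2 hg)).2
  rw [J_update, update_self] at r2
  have hJ : J c i ≤ (J c i).comap σ := J_le.2 fun j e => by
    rw [Ideal.mem_comap, wc]
    exact Submodule.smul_of_tower_mem _ _ (J_le.1 le_rfl j e)
  have f3 : ∀ u, (∀ P : Ideal R, P.IsPrime → u ∈ P → c i ∈ P ∨ h ∈ P) →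
      Module.Finite k (R ⧸ (J c i ⊔ Ideal.span {u})) := fun u hu =>
    fin_quot x hx hk fun P hP hl => by
      by_contra hne
      rcases hu P hP (hl (Ideal.mem_sup_right (Ideal.mem_span_singleton_self u))) with H | H
      · exact h1.not_mem hP (le_sup_left.trans hl) hne H
      · exact h2.not_mem (i := i) hP (by rw [J_update]; exact le_sup_left.trans hl) hne
          (by simpa using H)
  have := f3 (c i) fun _ _ H => .inl H
  have := f3 h fun _ _ H => .inr H
  have := f3 (c i * h) fun _ hP H => hP.mem_or_mem H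
  have := f3 (h * c i) fun _ hP H => (hP.mem_or_mem H).symm
  have e1 := tr_add σ hJ (wc i) wh r1
  have e2 := tr_add σ hJ wh (wc i) r2
  rw [mul_comm h, e1] at e2
  rw [span_eq c i, span_eq _ i, J_update, update_self]
  exact mul_left_cancel₀ (sub_ne_zero.2 hi) (by linear_combination -e2)

end Pool.Agent.H.MP_80eea4_gt
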