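import Pool.Agent.H.MP_80eea4_gt.B

set_option autoImplicit false

namespace Pool.Agent.H.MP_80eea4_gt

open IsLocalRing Function MvPowerSeries RingTheory.Sequence Matrix

variable {k : Type} [Field k] {ι : Type} [Fintype ι] [DecidableEq ι]

omit [Fintype ι] in
theorem mem_span_X (S : Finset ι) (u : MvPowerSeries ι k) :
    u ∈ Ideal.span ((X : ι → MvPowerSeries ι k) '' S) ↔
      ∀ d : ι →₀ ℕ, (∀ i ∈ S, d i = 0) → coeff d u = 0 := by
  constructor
  · intro hu d hd
    induction hu using Submodule.span_induction generalizing d with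
    | mem y hy =>
      obtain ⟨i, hi, rfl⟩ := hy
      exact X_dvd_iff.1 dvd_rfl d (hd i hi)
    | zero => simp
    | add a b _ _ ha hb => simp [ha d hd, hb d hd]
    | smul a b _ ih =>
      rw [smul_eq_mul, coeff_mul]
      refine Finset.sum_eq_zero fun p hp => ?_
      rw [ih p.2 fun i hi => ?_, mul_zero]
      have := DFunLike.congr_fun (Finset.HasAntidiagonal.mem_antidiagonal.1 hp) i
      rw [Finsupp.add_apply, hd i hi] at this
      omega
  · induction S using Finset.induction_on generalizing u with
    | empty =>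
      intro h
      rw [show u = 0 from MvPowerSeries.ext fun d => h d (by simp)]
      exact zero_mem _
    | insert i S _ ih =>
      intro h
      let v : MvPowerSeries ι k := fun d => if d i = 0 then coeff d u else 0
      have hv : ∀ d, coeff d v = if d i = 0 then coeff d u else 0 := fun _ => rfl
      have h1 : v ∈ Ideal.span ((X : ι → MvPowerSeries ι k) '' S) := ih v fun d hd => by
        rw [hv]
        split_ifs with e
        · exact h d (by simpa [e] using hd)
        · rfl
      obtain ⟨w, hw⟩ : (X i : MvPowerSeries ι k) ∣ u - v :=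
        X_dvd_iff.2 fun d hd => by simp [hv, hd]
      rw [eq_add_of_sub_eq hw]
      refine add_mem (Ideal.mul_mem_right _ _ (Ideal.subset_span ⟨i, by simp, rfl⟩))
        (Ideal.span_mono (Set.image_mono (by simp)) h1)

omit [Fintype ι] [DecidableEq ι] in
theorem mem_max (u : MvPowerSeries ι k) : u ∈ maximalIdeal _ ↔ constantCoeff u = 0 := by
  simp [mem_maximalIdeal, isUnit_iff_constantCoeff]

theorem max_eq : maximalIdeal (MvPowerSeries ι k) = Ideal.span (Set.range X) := by
  ext u
  have := mem_span_X Finset.univ u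
  rw [Finset.coe_univ, Set.image_univ] at this
  rw [this, mem_max]
  refine ⟨fun h d hd => ?_, fun h => h 0 (by simp)⟩
  rwa [show d = 0 from Finsupp.ext fun i => hd i (by simp)]

theorem good_X : Good (X : ι → MvPowerSeries ι k) := by
  refine ⟨fun j hj => ?_⟩
  have hj' : j < (Finset.univ : Finset ι).toList.length := by simpa using hj
  have e : (Ideal.ofList ((Finset.univ.toList.map (X : ι → MvPowerSeries ι k)).take j) • ⊤ :
      Submodule (MvPowerSeries ι k) (MvPowerSeries ι k)) =
      Ideal.span (X '' (((Finset.univ : Finset ι).toList.take j).toFinset : Finset ι)) := by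
    rw [smul_eq_mul, Ideal.mul_top, ← List.map_take]
    unfold Ideal.ofList
    congr 1
    ext r
    simp [-List.map_take]
  rw [isSMulRegular_quotient_iff_mem_of_smul_mem, e, List.getElem_map]
  intro u hu
  rw [mem_span_X] at hu ⊢
  intro d hd
  have := hu (Finsupp.single (Finset.univ.toList[j]) 1 + d) fun i hi => by
    rw [Finsupp.add_apply, hd i hi, add_zero, Finsupp.single_eq_of_ne]
    rintro rfl
    rw [List.mem_toFinset, List.mem_take_iff_getElem] at hi
    obtain ⟨l, hl, he⟩ := hi
    have := (Finset.nodup_toList _).getElem_inj_iff.1 he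
    omega
  rwa [smul_eq_mul, X_def, coeff_add_monomial_mul, one_mul] at this

theorem diag [IsAlgClosed k] [CharZero k] (A : Matrix ι ι k) {m : ℕ} (hm : m ≠ 0)
    (hA : A ^ m = 1) :
    ∃ (P Q : Matrix ι ι k) (z : ι → k), Q * P = 1 ∧ P * A = diagonal z * P := by
  classical
  let φ : Module.End k (ι → k) := toLin' Aᵀ
  have hs : φ.IsSemisimple := Module.End.isSemisimple_of_squarefree_aeval_eq_zero
    (Polynomial.X_pow_sub_one_separable_iff.2 (Nat.cast_ne_zero.2 hm)).squarefree (by
      simp only [map_sub, map_pow, Polynomial.aeval_X, map_one, φ]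
      rw [← toLin'_pow, ← transpose_pow, hA, transpose_one, toLin'_one, sub_eq_zero]
      rfl)
  have hi : DirectSum.IsInternal φ.eigenspace :=
    DirectSum.isInternal_submodule_of_iSupIndep_of_iSup_eq_top φ.eigenspaces_iSupIndep
      hs.iSup_eigenspace_eq_top
  let b0 := hi.collectedBasis fun μ => Module.Basis.ofVectorSpace k (φ.eigenspace μ)
  let e := b0.indexEquiv (Pi.basisFun k ι)
  let b := b0.reindex e
  have hb : ∀ i, Aᵀ *ᵥ b i = (e.symm i).1 • b i := fun i => by
    have := hi.collectedBasis_mem (fun μ => Module.Basis.ofVectorSpace k (φ.eigenspace μ)) (e.symm i)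
    rw [Module.End.mem_eigenspace_iff] at this
    simpa [b, b0, φ] using this
  have hu : IsUnit (Matrix.of fun i => b i) :=
    linearIndependent_rows_iff_isUnit.1 b.linearIndependent
  obtain ⟨Q, hQ⟩ := hu.exists_left_inv
  refine ⟨_, Q, fun i => (e.symm i).1, hQ, ?_⟩
  ext i j
  have := congrFun (hb i) j
  rw [diagonal_mul]
  simpa [mulVec, dotProduct, mul_apply, mul_comm] using this

variable {R : Type} [CommRing R] [Algebra k R]

/-- a matrix applied to a vector of ring elements -/
def act (P : Matrix ι ι k) (v : ι → R) : ι → R := fun i => ∑ j, P i j • v j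

omit [DecidableEq ι] in
theorem act_mul (P Q : Matrix ι ι k) (v : ι → R) : act (P * Q) v = act P (act Q v) := by
  funext i
  simp only [act, mul_apply, Finset.sum_smul, Finset.smul_sum, smul_smul]
  exact Finset.sum_comm

theorem act_diag (z : ι → k) (v : ι → R) (i : ι) : act (diagonal z) v i = z i • v i := by
  simp [act, diagonal_apply, ite_smul]

theorem act_one (v : ι → R) : act (1 : Matrix ι ι k) v = v := by
  funext i
  rw [← diagonal_one, act_diag, one_smul]

omit [DecidableEq ι] in
theorem act_mem (P : Matrix ι ι k) {v : ι → R} {I : Ideal R} (h : ∀ i, v i ∈ I) (i : ι) :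
    act P v i ∈ I := I.sum_mem fun j _ => Submodule.smul_of_tower_mem _ _ (h j)

theorem act_iff {P Q : Matrix ι ι k} (hQ : Q * P = 1) (v : ι → R) (I : Ideal R) :
    (∀ i, act P v i ∈ I) ↔ ∀ i, v i ∈ I :=
  ⟨fun h i => by have := act_mem Q h i; rwa [← act_mul, hQ, act_one] at this, act_mem P⟩

theorem main [IsAlgClosed k] [CharZero k] [IsLocalRing R] [IsNoetherianRing R] (x : ι → R)
    (hx : maximalIdeal R = Ideal.span (Set.range x))
    (hk : ∀ r : R, ∃ c : k, r - algebraMap k R c ∈ maximalIdeal R) (hg : Good x)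
    (σ : R →ₐ[k] R) (A : Matrix ι ι k) {m : ℕ} (hm : m ≠ 0) (hA : A ^ m = 1)
    (f : ι → R) (hf : Sop f) (fa : ∀ i, f i ∈ Algebra.adjoin k (Set.range x))
    (sx : ∀ i, σ (x i) = act A x i) (sf : ∀ i, σ (f i) = act A f i) :
    tr σ (Ideal.span (Set.range f)) = Module.finrank k
      (R ⧸ Ideal.span (Set.range f ∪ Set.range (act (A - 1) x))) := by
  classical
  obtain ⟨P, Q, z, hQ, hP⟩ := diag A hm hA
  have eig : ∀ v : ι → R, (∀ i, σ (v i) = act A v i) → ∀ i, σ (act P v i) = z i • act P v i :=
    fun v hv i => by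
      rw [← act_diag, ← act_mul, ← hP, act_mul]
      simp only [act, map_sum, map_smul, hv]
  have sub : ∀ i, act (A - 1) x i = σ (x i) - x i := fun i => by
    rw [sx]
    simp [act, sub_smul, one_apply, ite_smul]
  have fix : ∀ I : Ideal R, (∀ i, σ (x i) - x i ∈ I) →
      ∀ s ∈ Algebra.adjoin k (Set.range x), σ s - s ∈ I := by
    intro I hI s hs
    induction hs using Algebra.adjoin_induction with
    | mem y hy => obtain ⟨i, rfl⟩ := hy; exact hI i
    | algebraMap c => simp
    | add a b _ _ ha hb => convert add_mem ha hb using 1; rw [map_add]; ring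
    | mul a b _ _ ha hb =>
      convert add_mem (I.mul_mem_right (σ b) ha) (I.mul_mem_left a hb) using 1
      rw [map_mul]; ring
  have div : ∀ (I : Ideal R) (i : ι) (r : R), z i ≠ 1 → z i • r - r ∈ I → r ∈ I := by
    intro I i r hz h
    have := Submodule.smul_of_tower_mem I (z i - 1)⁻¹ h
    rwa [show z i • r - r = (z i - 1) • r by rw [sub_smul, one_smul], smul_smul,
      inv_mul_cancel₀ (sub_ne_zero.2 hz), one_smul] at this
  have mov : ∀ I : Ideal R, (∀ i, σ (x i) - x i ∈ I) ↔ ∀ i, z i ≠ 1 → act P x i ∈ I := by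
    intro I
    rw [← act_iff hQ]
    have : ∀ i, act P (fun j => σ (x j) - x j) i = z i • act P x i - act P x i := fun i => by
      rw [← eig x sx]
      simp [act, smul_sub]
    refine forall_congr' fun i => ?_
    rw [this]
    refine ⟨fun h hz => div I i _ hz h, fun h => ?_⟩
    by_cases hz : z i = 1
    · simp [hz]
    · exact sub_mem (Submodule.smul_of_tower_mem _ _ (h hz)) (h hz)
  let b : ι → R := fun i => if z i = 1 then act P f i else act P x i
  have hb : ∀ I : Ideal R, (∀ i, b i ∈ I) ↔ (∀ i, f i ∈ I) ∧ ∀ i, σ (x i) - x i ∈ I := by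
    intro I
    constructor
    · intro h
      have h1 := (mov I).2 fun i hz => by simpa [b, hz] using h i
      refine ⟨(act_iff hQ f I).1 fun i => ?_, h1⟩
      by_cases hz : z i = 1
      · simpa [b, hz] using h i
      · refine div I i _ hz ?_
        rw [← eig f sf]
        exact fix I h1 _ (Subalgebra.sum_mem _ fun j _ => Subalgebra.smul_mem _ (fa j) _)
    · rintro ⟨h1, h2⟩ i
      by_cases hz : z i = 1
      · simpa [b, hz] using act_mem P h1 i
      · simpa [b, hz] using (mov I).1 h2 i hz
  have xm : ∀ i, x i ∈ maximalIdeal R := fun i => hx ▸ Ideal.subset_span ⟨i, rfl⟩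
  have sb : Sop b := ⟨fun i => by
    by_cases hz : z i = 1
    · simpa only [b, hz, if_true] using act_mem P hf.1 i
    · simpa only [b, hz, if_false] using act_mem P xm i,
    fun I hI h => hf.2 I hI ((hb I).1 h).1⟩
  have e1 : Ideal.span (Set.range f) = Ideal.span (Set.range (act P f)) :=
    eq_of_forall_ge_iff fun I => by
      simp only [Ideal.span_le, Set.range_subset_iff, SetLike.mem_coe, act_iff hQ]
  have e2 : Ideal.span (Set.range f ∪ Set.range (act (A - 1) x)) = Ideal.span (Set.range b) :=
    eq_of_forall_ge_iff fun I => by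
      simp only [Ideal.span_le, Set.union_subset_iff, Set.range_subset_iff, SetLike.mem_coe, hb,
        sub]
  rw [e1, e2, tr_sop x hx hk hg σ z (b := b) ⟨act_mem P hf.1, fun I hI h =>
    hf.2 I hI ((act_iff hQ f I).1 h)⟩ sb (eig f sf) (fun i => by
      by_cases hz : z i = 1
      · simpa only [b, hz, if_true] using eig f sf i
      · simpa only [b, hz, if_false] using eig x sx i) fun i hz => by simp [b, hz]]
  have pb : ∀ P : Ideal R, P.IsPrime → Ideal.span (Set.range b) ≤ P → P = maximalIdeal R :=
    fun I hI h => sb.2 I hI fun i => h (Ideal.subset_span ⟨i, rfl⟩)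
  have := fin_quot x hx hk pb
  have h0 := ((hb (Ideal.span (Set.range b))).1 fun i => Ideal.subset_span ⟨i, rfl⟩).2
  have st : Ideal.span (Set.range b) ≤ (Ideal.span (Set.range b)).comap σ := by
    rw [Ideal.span_le, Set.range_subset_iff]
    intro i
    have hi : b i ∈ Ideal.span (Set.range b) := Ideal.subset_span ⟨i, rfl⟩
    have : σ (b i) = z i • b i := by
      by_cases hz : z i = 1
      · simpa only [b, hz, if_true] using eig f sf i
      · simpa only [b, hz, if_false] using eig x sx i
    rw [SetLike.mem_coe, Ideal.mem_comap, this]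
    exact Submodule.smul_of_tower_mem _ _ hi
  unfold tr
  rw [dif_pos st, AlgHom.ext_of_adjoin_eq_top (adj_top x hx hk pb)
    (φ₁ := Ideal.quotientMapₐ _ σ st) (φ₂ := AlgHom.id k _) (by
      rintro _ ⟨i, rfl⟩
      exact Ideal.Quotient.eq.2 (h0 i))]
  exact LinearMap.trace_id k _

end Pool.Agent.H.MP_80eea4_gt
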